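import Pool.Agent.Y910.F.Stm2

/-!
A rational datum from a square root over a number field, by traces.
-/

open Polynomial

set_option autoImplicit false

namespace Pool.Agent.Y930.FK

lemma trace_fld_aux (K : Type) [Field K] [Algebra K ℂ] (g : K[X]) (hg : g.Separable) (P : K[X])
    (E : Type) [Field E] [Algebra K E] [g.IsSplittingField K E] [FiniteDimensional K E] :
    ∃ q : K, ∑ r ∈ (g.map (algebraMap K ℂ)).roots.toFinset, (P.map (algebraMap K ℂ)).eval r
      = algebraMap K ℂ q := by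
  classical
  have hE : IsGalois K E := IsGalois.of_separable_splitting_field hg
  let φ : E →ₐ[K] ℂ := IsAlgClosed.lift
  have hsp : (g.map (algebraMap K E)).Splits := IsSplittingField.splits E g
  have h1 : ∀ σ : E ≃ₐ[K] E, σ (∑ r ∈ (g.map (algebraMap K E)).roots.toFinset,
      (P.map (algebraMap K E)).eval r) = ∑ r ∈ (g.map (algebraMap K E)).roots.toFinset,
      (P.map (algebraMap K E)).eval r := by
    intro σ
    rw [map_sum]
    refine Finset.sum_equiv σ.toEquiv ?_ ?_
    · intro r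
      have hg0 : g.map (algebraMap K E) ≠ 0 := (Polynomial.map_ne_zero hg.ne_zero)
      rw [Multiset.mem_toFinset, Multiset.mem_toFinset, mem_roots hg0, mem_roots hg0, IsRoot.def,
        IsRoot.def, eval_map_algebraMap, eval_map_algebraMap]
      change _ ↔ aeval (σ r) g = 0
      have h5 : aeval (σ r) g = σ (aeval r g) := by
        have := aeval_algHom_apply σ.toAlgHom r g
        exact this
      rw [h5]
      constructor
      · intro h; rw [h, map_zero]
      · intro h; exact σ.injective (h.trans (map_zero σ).symm)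
    · intro r _
      change σ _ = eval (σ r) _
      rw [eval_map_algebraMap, eval_map_algebraMap]
      exact (aeval_algHom_apply σ.toAlgHom r P).symm
  obtain ⟨q, hq⟩ := (IsGalois.mem_range_algebraMap_iff_fixed _).2 h1
  refine ⟨q, ?_⟩
  have h2 : g.map (algebraMap K ℂ) = (g.map (algebraMap K E)).map φ.toRingHom := by
    rw [Polynomial.map_map]
    congr 1
    exact (φ.comp_algebraMap).symm
  have h3 : (g.map (algebraMap K ℂ)).roots.toFinset
      = (g.map (algebraMap K E)).roots.toFinset.image φ := by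
    rw [h2, hsp.roots_map]
    ext z
    simp
  rw [h3, Finset.sum_image (f := fun r => eval r (map (algebraMap K ℂ) P)) (g := φ)
    (fun a _ b _ h => φ.toRingHom.injective h)]
  have h4 : ∀ r : E, (P.map (algebraMap K ℂ)).eval (φ r) = φ ((P.map (algebraMap K E)).eval r) := by
    intro r
    rw [eval_map_algebraMap, eval_map_algebraMap, aeval_algHom_apply]
  simp only [h4]
  rw [← map_sum, ← hq]
  simp

/-- the sum of the values of a polynomial over `K` at the roots of a polynomial over `K` lies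
in `K` -/
lemma trace_fld (K : Type) [Field K] [Algebra K ℂ] (g : K[X]) (hg : g.Separable) (P : K[X]) :
    ∃ q : K, ∑ r ∈ (g.map (algebraMap K ℂ)).roots.toFinset, (P.map (algebraMap K ℂ)).eval r
      = algebraMap K ℂ q :=
  @trace_fld_aux K _ _ g hg P g.SplittingField _ _ (IsSplittingField.splittingField g) _

lemma aeval_int_map {K : Type} [Field K] [Algebra K ℂ] (f : ℤ →+* K) (g : ℤ[X]) (θ : ℂ) :
    aeval θ (g.map f) = aeval θ g := by
  rw [aeval_def, aeval_def, eval₂_map]
  congr 1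
  exact RingHom.ext_int _ _

theorem done : Pool.Agent.Y910.F.StKAP → Pool.Agent.Y910.F.StTR := by
  intro hKAP K _ _
  obtain ⟨κ, hκ, hne⟩ := hKAP K
  set S : ℝ := ∑ σ : K ≃ₐ[ℚ] K, ‖((σ κ : K) : ℂ)‖ with hS
  have hS0 : 0 ≤ S := Finset.sum_nonneg fun _ _ => norm_nonneg _
  refine ⟨⌈S⌉₊ ^ 2 + 1, by omega, ?_⟩
  have hcK : S ^ 2 ≤ ((⌈S⌉₊ ^ 2 + 1 : ℕ) : ℝ) := by
    push_cast
    have := pow_le_pow_left₀ hS0 (Nat.le_ceil S) 2
    linarith
  intro g hg b x hb hx B hB
  -- the conjugates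
  have hdiv : ∀ σ : K ≃ₐ[ℚ] K, g.map (Int.castRingHom K) ∣
      (B.map (σ : K →ₐ[ℚ] K).toRingHom) ^ 2 - C (b : K) * (C (x : K) - X) := by
    intro σ
    have h1 := map_dvd (mapRingHom (σ : K →ₐ[ℚ] K).toRingHom) hB
    have h2 : mapRingHom (σ : K →ₐ[ℚ] K).toRingHom (g.map (Int.castRingHom K))
        = g.map (Int.castRingHom K) := by
      rw [coe_mapRingHom, Polynomial.map_map]
      congr 1
      exact RingHom.ext_int _ _
    rw [h2] at h1
    simpa using h1
  have hval : ∀ B' : Polynomial K, g.map (Int.castRingHom K) ∣ B' ^ 2 - C (b : K) * (C (x : K) - X) →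
      ∀ θ : ℂ, aeval θ g = 0 → (aeval θ B') ^ 2 = (b : ℂ) * (x - θ) := by
    intro B' hB' θ hθ
    obtain ⟨Q, hQ⟩ := hB'
    have h1 := congrArg (aeval θ) hQ
    rw [map_mul, aeval_int_map, hθ, zero_mul] at h1
    simp only [map_sub, map_pow, map_mul, aeval_X, map_intCast] at h1
    exact sub_eq_zero.mp h1
  have hxθ : ∀ θ : ℂ, aeval θ g = 0 → (x : ℂ) - θ ≠ 0 := by
    intro θ hθ h
    rw [sub_eq_zero.mp h] at hx
    exact hx hθ
  have hbC : (b : ℂ) ≠ 0 := by exact_mod_cast hb
  have hβ0 : ∀ θ : ℂ, aeval θ g = 0 → aeval θ B ≠ 0 := by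
    intro θ hθ h
    have := hval B hB θ hθ
    rw [h, zero_pow two_ne_zero] at this
    exact mul_ne_zero hbC (hxθ θ hθ) this.symm
  -- the rational polynomial `B0`
  obtain ⟨B0, hB0⟩ : ∃ B0 : ℚ[X], B0.map (algebraMap ℚ K)
      = ∑ σ : K ≃ₐ[ℚ] K, C (σ κ) * B.map (σ : K →ₐ[ℚ] K).toRingHom := by
    have h1 : (∑ σ : K ≃ₐ[ℚ] K, C (σ κ) * B.map (σ : K →ₐ[ℚ] K).toRingHom)
        ∈ Polynomial.lifts (algebraMap ℚ K) := by
      rw [Polynomial.lifts_iff_coeff_lifts]
      intro n
      refine ⟨Algebra.trace ℚ K (κ * B.coeff n), ?_⟩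
      rw [trace_eq_sum_automorphisms, finsetSum_coeff]
      refine Finset.sum_congr rfl fun σ _ => ?_
      rw [coeff_C_mul, coeff_map, map_mul]
      rfl
    exact (Polynomial.mem_lifts _).mp h1
  have hB0θ : ∀ θ : ℂ, aeval θ B0
      = ∑ σ : K ≃ₐ[ℚ] K, ((σ κ : K) : ℂ) * aeval θ (B.map (σ : K →ₐ[ℚ] K).toRingHom) := by
    intro θ
    rw [← aeval_map_algebraMap K θ B0, hB0, map_sum]
    refine Finset.sum_congr rfl fun σ _ => ?_
    rw [map_mul, aeval_C]
    rfl
  -- the factor `γ`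
  have hγ : ∀ θ : ℂ, aeval θ g = 0 → ∃ γ : ℂ, aeval θ B0 = γ * aeval θ B ∧ IsIntegral ℤ γ ∧
      γ ≠ 0 ∧ ‖γ‖ ≤ S := by
    intro θ hθ
    have h1 : ∀ σ : K ≃ₐ[ℚ] K, ∃ e : ℤ, (e = 1 ∨ e = -1) ∧
        aeval θ (B.map (σ : K →ₐ[ℚ] K).toRingHom) = (e : ℂ) * aeval θ B := by
      intro σ
      have h2 := hval _ (hdiv σ) θ hθ
      rw [← hval B hB θ hθ] at h2
      rcases sq_eq_sq_iff_eq_or_eq_neg.mp h2 with h | h
      · exact ⟨1, Or.inl rfl, by rw [h]; simp⟩
      · exact ⟨-1, Or.inr rfl, by rw [h]; simp⟩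
    choose e he1 he2 using h1
    have h3 : (((∑ σ : K ≃ₐ[ℚ] K, (e σ : K) * σ κ : K)) : ℂ)
        = ∑ σ : K ≃ₐ[ℚ] K, (e σ : ℂ) * ((σ κ : K) : ℂ) := by
      have h4 := map_sum (algebraMap K ℂ) (fun σ : K ≃ₐ[ℚ] K => (e σ : K) * σ κ) Finset.univ
      refine Eq.trans h4 ?_
      refine Finset.sum_congr rfl fun σ _ => ?_
      rw [map_mul, map_intCast]
      rfl
    refine ⟨∑ σ : K ≃ₐ[ℚ] K, (e σ : ℂ) * ((σ κ : K) : ℂ), ?_, ?_, ?_, ?_⟩
    · rw [hB0θ θ, Finset.sum_mul]
      refine Finset.sum_congr rfl fun σ _ => ?_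
      rw [he2 σ]
      ring
    · apply IsIntegral.sum
      intro σ _
      have h5 : IsIntegral ℤ (σ κ) := hκ.map (σ : K →ₐ[ℚ] K).toRingHom.toIntAlgHom
      have h6 : IsIntegral ℤ ((σ κ : K) : ℂ) := h5.map (algebraMap K ℂ).toIntAlgHom
      have h7 : IsIntegral ℤ (e σ : ℂ) := by
        have := isIntegral_algebraMap (R := ℤ) (A := ℂ) (x := e σ)
        simpa using this
      exact h7.mul h6
    · rw [← h3]
      intro h
      apply hne e he1
      exact (algebraMap K ℂ).injective (h.trans (map_zero _).symm)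
    · refine (norm_sum_le _ _).trans (Finset.sum_le_sum fun σ _ => ?_)
      rw [norm_mul]
      rcases he1 σ with h | h <;> rw [h] <;> simp
  -- the inverse of `x - X`
  have hcop : IsCoprime (C (x : ℚ) - X) (g.map (Int.castRingHom ℚ)) := by
    have h1 : IsCoprime (X - C (x : ℚ)) (g.map (Int.castRingHom ℚ)) := by
      rw [(irreducible_X_sub_C (x : ℚ)).coprime_iff_not_dvd, dvd_iff_isRoot, IsRoot.def]
      intro h
      apply hx
      have h2 : aeval (x : ℂ) (g.map (Int.castRingHom ℚ)) = aeval (x : ℂ) g := aeval_int_map _ _ _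
      rw [← h2]
      have h3 : ((x : ℚ) : ℂ) = (x : ℂ) := by push_cast; rfl
      rw [← h3]
      have h4 := aeval_algebraMap_apply ℂ (x : ℚ) (g.map (Int.castRingHom ℚ))
      have h5 : algebraMap ℚ ℂ (x : ℚ) = ((x : ℚ) : ℂ) := rfl
      rw [h5] at h4
      rw [h4, coe_aeval_eq_eval, h, map_zero]
    have h2 : C (x : ℚ) - X = -(X - C (x : ℚ)) := by ring
    rw [h2]
    exact h1.neg_left
  obtain ⟨I, V, hIV⟩ := hcop
  have hI : ∀ θ : ℂ, aeval θ g = 0 → aeval θ I * ((x : ℂ) - θ) = 1 := by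
    intro θ hθ
    have h1 := congrArg (aeval θ) hIV
    simp only [map_add, map_mul, map_sub, aeval_C, aeval_X, map_one, aeval_int_map, hθ,
      mul_zero, add_zero] at h1
    rw [← h1]
    simp
  have hD : ∀ θ : ℂ, aeval θ g = 0 → ∀ γ : ℂ, aeval θ B0 = γ * aeval θ B →
      aeval θ (B0 ^ 2 * I) = γ ^ 2 * b := by
    intro θ hθ γ hγ'
    have h1 := hval B hB θ hθ
    have h2 := hI θ hθ
    rw [map_mul, map_pow, hγ', mul_pow, h1]
    calc γ ^ 2 * ((b : ℂ) * (x - θ)) * aeval θ I = γ ^ 2 * b * (aeval θ I * (x - θ)) := by ring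
      _ = γ ^ 2 * b := by rw [h2, mul_one]
  refine ⟨B0 ^ 2 * I, B0, ?_, ?_, ?_⟩
  · refine ⟨B0 ^ 2 * V, ?_⟩
    have h1 : B0 ^ 2 - B0 ^ 2 * I * (C (x : ℚ) - X)
        = B0 ^ 2 * (1 - I * (C (x : ℚ) - X)) := by ring
    rw [h1, ← hIV]
    ring
  · intro θ hθ
    obtain ⟨γ, h1, h2, h3, h4⟩ := hγ θ hθ
    rw [hD θ hθ γ h1]
    refine ⟨?_, mul_ne_zero (pow_ne_zero _ h3) hbC, ?_⟩
    · have h7 : IsIntegral ℤ (b : ℂ) := by
        have := isIntegral_algebraMap (R := ℤ) (A := ℂ) (x := b)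
        simpa using this
      exact (h2.pow 2).mul h7
    · rw [norm_mul, norm_pow]
      have h8 : ‖(b : ℂ)‖ = |(b : ℝ)| := by
        rw [← Complex.ofReal_intCast, Complex.norm_real, Real.norm_eq_abs]
      rw [h8]
      apply mul_le_mul_of_nonneg_right _ (abs_nonneg _)
      exact (pow_le_pow_left₀ (norm_nonneg _) h4 2).trans hcK
  · obtain ⟨s, hs⟩ := IsAlgClosed.exists_pow_nat_eq (b : ℂ) (n := 2) (by norm_num)
    refine ⟨fun θ => s * (aeval θ B0 / aeval θ B), ?_, ?_⟩
    · intro θ hθ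
      obtain ⟨γ, h1, h2, h3, h4⟩ := hγ θ hθ
      rw [hD θ hθ γ h1]
      change (s * (aeval θ B0 / aeval θ B)) ^ 2 = _
      rw [h1, mul_div_cancel_right₀ _ (hβ0 θ hθ), mul_pow, hs]
      ring
    · intro P
      set G : Finset ℂ := ((g.map (Int.castRingHom ℚ)).map (algebraMap ℚ ℂ)).roots.toFinset with hG
      have hmemG : ∀ r ∈ G, aeval r g = 0 := by
        intro r hr
        rw [hG, Multiset.mem_toFinset] at hr
        have h3 := (mem_roots'.1 hr).2
        rw [IsRoot.def, Polynomial.map_map, eval_map] at h3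
        rw [aeval_def, ← h3]
        congr 1
      have hGK : ((g.map (Int.castRingHom K)).map (algebraMap K ℂ)).roots.toFinset = G := by
        rw [hG]
        congr 2
        rw [Polynomial.map_map, Polynomial.map_map]
        congr 1
      have hsepK : (g.map (Int.castRingHom K)).Separable := by
        have h1 : g.map (Int.castRingHom K) = (g.map (Int.castRingHom ℚ)).map (algebraMap ℚ K) := by
          rw [Polynomial.map_map]
          congr 1
        rw [h1]
        exact hg.map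
      have hbK : (b : K) ≠ 0 := by exact_mod_cast hb
      obtain ⟨q, hq⟩ := trace_fld K (g.map (Int.castRingHom K)) hsepK
        (P.map (algebraMap ℚ K) * B0.map (algebraMap ℚ K) * B * I.map (algebraMap ℚ K)
          * C ((b : K)⁻¹))
      rw [hGK] at hq
      have h5 : ∑ r ∈ G, aeval r P * (s * (aeval r B0 / aeval r B)) = s * (q : ℂ) := by
        have h6 : (q : ℂ) = algebraMap K ℂ q := rfl
        rw [h6, ← hq, Finset.mul_sum]
        refine Finset.sum_congr rfl fun r hr => ?_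
        have hr' := hmemG r hr
        have h7 := hval B hB r hr'
        have h8 := hI r hr'
        have h9 := hβ0 r hr'
        rw [eval_map_algebraMap, map_mul, map_mul, map_mul, map_mul, aeval_C,
          aeval_map_algebraMap, aeval_map_algebraMap, aeval_map_algebraMap, map_inv₀, map_intCast]
        have h10 : aeval r B0 / aeval r B
            = aeval r B0 * aeval r B * aeval r I * (b : ℂ)⁻¹ := by
          rw [div_eq_iff h9]
          calc aeval r B0 = aeval r B0 * ((b : ℂ) * (b : ℂ)⁻¹) * (aeval r I * (x - r)) := by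
                rw [mul_inv_cancel₀ hbC, h8]; ring
            _ = aeval r B0 * aeval r I * (b : ℂ)⁻¹ * ((b : ℂ) * (x - r)) := by ring
            _ = aeval r B0 * aeval r I * (b : ℂ)⁻¹ * (aeval r B) ^ 2 := by rw [h7]
            _ = _ := by ring
        rw [h10]
        ring
      rw [h5, mul_pow, hs]
      have h11 : ((b : ℂ)) * (q : ℂ) ^ 2 = (((b : K) * q ^ 2 : K) : ℂ) := by
        push_cast
        rfl
      rw [h11]
      exact SetLike.coe_mem _

end Pool.Agent.Y930.FK
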