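import Pool.Agent.Y755.FK.Stm

/-!
# FK-CK: contour around a branch point (project FK of helper755)
-/

set_option autoImplicit false

open MeasureTheory Filter Complex Set

namespace Pool.Agent.Y930.FK

noncomputable section

open Pool.Agent.Y755.FK

/-- the square root which is continuous on the closed upper half plane -/
def Sp (z : ℂ) : ℂ := exp ((Real.pi / 4 : ℝ) * I) * (-I * z) ^ ((1 / 2 : ℝ) : ℂ)

/-- the square root which is continuous on the closed lower half plane -/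
def Sm (z : ℂ) : ℂ := exp ((-(Real.pi / 4) : ℝ) * I) * (I * z) ^ ((1 / 2 : ℝ) : ℂ)

theorem norm_Sp (z : ℂ) : ‖Sp z‖ = ‖z‖ ^ (1 / 2 : ℝ) := by
  rw [Sp, norm_mul, norm_exp_ofReal_mul_I, norm_cpow_real]
  simp

theorem norm_Sm (z : ℂ) : ‖Sm z‖ = ‖z‖ ^ (1 / 2 : ℝ) := by
  rw [Sm, norm_mul, norm_exp_ofReal_mul_I, norm_cpow_real]
  simp

theorem cont_Sp {z : ℂ} (hz : 0 ≤ z.im) : ContinuousAt Sp z := by
  have h : ContinuousAt (fun z : ℂ => z ^ ((1 / 2 : ℝ) : ℂ)) (-I * z) :=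
    continuousAt_cpow_const_of_re_pos (Or.inl (by simpa using hz)) (by norm_num)
  have h2 : ContinuousAt (fun z : ℂ => -I * z) z := by fun_prop
  exact continuousAt_const.mul (ContinuousAt.comp (f := fun z : ℂ => -I * z) h h2)

theorem cont_Sm {z : ℂ} (hz : z.im ≤ 0) : ContinuousAt Sm z := by
  have h : ContinuousAt (fun z : ℂ => z ^ ((1 / 2 : ℝ) : ℂ)) (I * z) :=
    continuousAt_cpow_const_of_re_pos (Or.inl (by simpa using hz)) (by norm_num)
  have h2 : ContinuousAt (fun z : ℂ => I * z) z := by fun_prop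
  exact continuousAt_const.mul (ContinuousAt.comp (f := fun z : ℂ => I * z) h h2)

theorem diff_Sp {z : ℂ} (hz : 0 < z.im) : DifferentiableAt ℂ Sp z := by
  have h2 : DifferentiableAt ℂ (fun z : ℂ => -I * z) z := by fun_prop
  exact (h2.cpow_const (Or.inl (by simpa using hz))).const_mul _

theorem diff_Sm {z : ℂ} (hz : z.im < 0) : DifferentiableAt ℂ Sm z := by
  have h2 : DifferentiableAt ℂ (fun z : ℂ => I * z) z := by fun_prop
  exact (h2.cpow_const (Or.inl (by simpa using hz))).const_mul _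

theorem Sp_eq {z : ℂ} (hz : 0 < z.re) : Sp z = z ^ ((1 / 2 : ℝ) : ℂ) := by
  have hz0 : z ≠ 0 := by
    rintro rfl
    simp at hz
  have harg := abs_arg_lt_pi_div_two_iff.2 (Or.inl hz)
  rw [abs_lt] at harg
  have hI : (-I : ℂ) ≠ 0 := by simp
  have hlog : log (-I * z) = log (-I) + log z := by
    refine log_mul hI hz0 ?_
    rw [arg_neg_I]
    constructor <;> linarith [harg.1, harg.2, Real.pi_pos]
  rw [Sp, cpow_def_of_ne_zero (mul_ne_zero hI hz0), cpow_def_of_ne_zero hz0, ← exp_add, hlog,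
    log_neg_I]
  congr 1
  push_cast
  ring

theorem Sm_eq {z : ℂ} (hz : 0 < z.re) : Sm z = z ^ ((1 / 2 : ℝ) : ℂ) := by
  have hz0 : z ≠ 0 := by
    rintro rfl
    simp at hz
  have harg := abs_arg_lt_pi_div_two_iff.2 (Or.inl hz)
  rw [abs_lt] at harg
  have hlog : log (I * z) = log I + log z := by
    refine log_mul I_ne_zero hz0 ?_
    rw [arg_I]
    constructor <;> linarith [harg.1, harg.2, Real.pi_pos]
  rw [Sm, cpow_def_of_ne_zero (mul_ne_zero I_ne_zero hz0), cpow_def_of_ne_zero hz0, ← exp_add, hlog,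
    log_I]
  congr 1
  push_cast
  ring

theorem Sp_neg {t : ℝ} (ht : 0 ≤ t) : Sp (-t : ℝ) = I * ((t ^ (1 / 2 : ℝ) : ℝ) : ℂ) := by
  rcases ht.eq_or_lt with rfl | ht
  · simp [Sp]
  · have ht0 : (t : ℂ) ≠ 0 := by exact_mod_cast ht.ne'
    have e1 : -I * ((-t : ℝ) : ℂ) = (t : ℂ) * I := by push_cast; ring
    rw [Sp, e1, cpow_def_of_ne_zero (mul_ne_zero ht0 I_ne_zero), log_ofReal_mul ht I_ne_zero,
      log_I, ← exp_add, Real.rpow_def_of_pos ht, ofReal_exp]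
    have e2 : ((Real.pi / 4 : ℝ) : ℂ) * I + ((Real.log t : ℂ) + (Real.pi : ℂ) / 2 * I) * ((1 / 2 : ℝ) : ℂ)
        = (Real.pi : ℂ) / 2 * I + ((Real.log t * (1 / 2) : ℝ) : ℂ) := by
      push_cast
      ring
    rw [e2, exp_add, exp_pi_div_two_mul_I]

theorem Sm_neg {t : ℝ} (ht : 0 ≤ t) : Sm (-t : ℝ) = -I * ((t ^ (1 / 2 : ℝ) : ℝ) : ℂ) := by
  rcases ht.eq_or_lt with rfl | ht
  · simp [Sm]
  · have ht0 : (t : ℂ) ≠ 0 := by exact_mod_cast ht.ne'
    have hI : (-I : ℂ) ≠ 0 := by simp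
    have e1 : I * ((-t : ℝ) : ℂ) = (t : ℂ) * (-I) := by push_cast; ring
    rw [Sm, e1, cpow_def_of_ne_zero (mul_ne_zero ht0 hI), log_ofReal_mul ht hI,
      log_neg_I, ← exp_add, Real.rpow_def_of_pos ht, ofReal_exp]
    have e2 : ((-(Real.pi / 4) : ℝ) : ℂ) * I
        + ((Real.log t : ℂ) + -((Real.pi : ℂ) / 2) * I) * ((1 / 2 : ℝ) : ℂ)
        = -((Real.pi : ℂ) / 2 * I) + ((Real.log t * (1 / 2) : ℝ) : ℂ) := by
      push_cast
      ring
    rw [e2, exp_add, exp_neg, exp_pi_div_two_mul_I, inv_I]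

/-- the integrand -/
def FF (S G : ℂ → ℂ) (u b : ℝ) (w : ℂ) : ℂ := Ph w * S (w - b) * G (1 + w) * exp (u * w)

theorem FF_bound {S G : ℂ → ℂ} {u b C B : ℝ} {w : ℂ}
    (hS : ∀ z, ‖S z‖ = ‖z‖ ^ (1 / 2 : ℝ)) (hb : |b| ≤ 1) (hC : 0 ≤ C)
    (hP : ‖Ph w‖ ≤ C / (1 + ‖w‖ ^ 2)) (hG : ‖G (1 + w)‖ ≤ B) :
    ‖FF S G u b w‖ ≤ 2 * C * B * Real.exp (u * w.re) * (1 + ‖w.im‖ ^ 2) ^ (-(3 / 2 : ℝ) / 2) := by
  set X : ℝ := 1 + ‖w‖ ^ 2 with hX
  have hX1 : 1 ≤ X := by rw [hX]; nlinarith [sq_nonneg ‖w‖]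
  have hX0 : 0 < X := by linarith
  have hB : 0 ≤ B := (norm_nonneg _).trans hG
  -- the square root
  have h1 : ‖w - b‖ ≤ 2 * X ^ (1 / 2 : ℝ) := by
    have h2 : ‖w - b‖ ≤ ‖w‖ + 1 := by
      refine (norm_sub_le _ _).trans ?_
      have : ‖(b : ℂ)‖ = |b| := by simp
      linarith
    have h3 : ‖w‖ ≤ X ^ (1 / 2 : ℝ) := by
      rw [← Real.sqrt_eq_rpow]
      refine Real.le_sqrt_of_sq_le ?_
      rw [hX]
      linarith
    have h4 : 1 ≤ X ^ (1 / 2 : ℝ) := Real.one_le_rpow hX1 (by norm_num)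
    linarith
  have h5 : ‖S (w - b)‖ ≤ 2 * X ^ (1 / 4 : ℝ) := by
    rw [hS]
    calc ‖w - b‖ ^ (1 / 2 : ℝ) ≤ (2 * X ^ (1 / 2 : ℝ)) ^ (1 / 2 : ℝ) :=
          Real.rpow_le_rpow (norm_nonneg _) h1 (by norm_num)
      _ = 2 ^ (1 / 2 : ℝ) * X ^ (1 / 4 : ℝ) := by
          rw [Real.mul_rpow (by norm_num) (by positivity), ← Real.rpow_mul hX0.le]
          norm_num
      _ ≤ 2 ^ (1 : ℝ) * X ^ (1 / 4 : ℝ) := by
          gcongr
          · norm_num
          · norm_num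
      _ = _ := by rw [Real.rpow_one]
  have h6 : X⁻¹ * X ^ (1 / 4 : ℝ) ≤ (1 + ‖w.im‖ ^ 2) ^ (-(3 / 2 : ℝ) / 2) := by
    have h7 : X⁻¹ * X ^ (1 / 4 : ℝ) = X ^ (-(3 / 2 : ℝ) / 2) := by
      rw [← Real.rpow_neg_one, ← Real.rpow_add hX0]
      norm_num
    rw [h7]
    refine Real.rpow_le_rpow_of_nonpos (by positivity) ?_ (by norm_num)
    rw [hX]
    have : ‖w.im‖ ≤ ‖w‖ := by
      rw [Real.norm_eq_abs]
      exact abs_im_le_norm w
    gcongr
  have h8 : ‖exp (u * w)‖ = Real.exp (u * w.re) := by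
    rw [norm_exp]
    congr 1
    simp
  rw [FF, norm_mul, norm_mul, norm_mul, h8]
  calc ‖Ph w‖ * ‖S (w - b)‖ * ‖G (1 + w)‖ * Real.exp (u * w.re)
      ≤ (C / X) * (2 * X ^ (1 / 4 : ℝ)) * B * Real.exp (u * w.re) := by gcongr
    _ = 2 * C * B * Real.exp (u * w.re) * (X⁻¹ * X ^ (1 / 4 : ℝ)) := by
        rw [div_eq_mul_inv]; ring
    _ ≤ _ := by gcongr

theorem FF_cont {S G : ℂ → ℂ} {u b : ℝ} {w : ℂ} (hP : Differentiable ℂ Ph)
    (hS : ContinuousAt S (w - b)) (hG : ContinuousAt G (1 + w)) :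
    ContinuousAt (FF S G u b) w := by
  have h1 : ContinuousAt (fun w : ℂ => S (w - b)) w :=
    ContinuousAt.comp (f := fun w : ℂ => w - b) hS (by fun_prop)
  have h2 : ContinuousAt (fun w : ℂ => G (1 + w)) w :=
    ContinuousAt.comp (f := fun w : ℂ => 1 + w) hG (by fun_prop)
  have h3 : ContinuousAt (fun w : ℂ => exp (u * w)) w := by fun_prop
  exact ((hP.continuous.continuousAt.mul h1).mul h2).mul h3

theorem FF_diff {S G : ℂ → ℂ} {u b : ℝ} {w : ℂ} (hP : Differentiable ℂ Ph)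
    (hS : DifferentiableAt ℂ S (w - b)) (hG : DifferentiableAt ℂ G (1 + w)) :
    DifferentiableAt ℂ (FF S G u b) w := by
  have h1 : DifferentiableAt ℂ (fun w : ℂ => S (w - b)) w :=
    DifferentiableAt.comp (f := fun w : ℂ => w - b) w hS (by fun_prop)
  have h2 : DifferentiableAt ℂ (fun w : ℂ => G (1 + w)) w :=
    DifferentiableAt.comp (f := fun w : ℂ => 1 + w) w hG (by fun_prop)
  have h3 : DifferentiableAt ℂ (fun w : ℂ => exp (u * w)) w := by fun_prop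
  exact ((hP.differentiableAt.mul h1).mul h2).mul h3

/-- Cauchy's theorem on the upper rectangle. -/
theorem upper {G : ℂ → ℂ} {u b η σ T : ℝ} (hP : Differentiable ℂ Ph) (hσ : 0 < σ) (hσ1 : σ ≤ 1)
    (hη : 0 < η) (hT : 0 < T)
    (hG : ∀ s : ℂ, 1 - η ≤ s.re → s.re ≤ 2 → |s.im| ≤ T → DifferentiableAt ℂ G s) :
    (∫ x : ℝ in (-η)..σ, FF Sp G u b (x + ((0 : ℝ) : ℂ) * I))
      - (∫ x : ℝ in (-η)..σ, FF Sp G u b (x + (T : ℂ) * I))
      + I * (∫ y : ℝ in (0 : ℝ)..T, FF Sp G u b (σ + y * I))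
      - I * (∫ y : ℝ in (0 : ℝ)..T, FF Sp G u b ((-η : ℝ) + y * I)) = 0 := by
  have h := integral_boundary_rect_eq_zero_of_continuousOn_of_differentiableOn (FF Sp G u b)
    (⟨-η, 0⟩ : ℂ) (⟨σ, T⟩ : ℂ) ?_ ?_
  · simpa only [smul_eq_mul] using h
  · intro w hw
    rw [mem_reProdIm] at hw
    simp only [uIcc_of_le (show -η ≤ σ by linarith), uIcc_of_le hT.le, mem_Icc] at hw
    refine (FF_cont hP (cont_Sp ?_) (hG _ ?_ ?_ ?_).continuousAt).continuousWithinAt
    · simpa using hw.2.1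
    · simp; linarith [hw.1.1]
    · simp; linarith [hw.1.2]
    · simp only [add_im, one_im, zero_add]
      rw [abs_of_nonneg hw.2.1]
      exact hw.2.2
  · intro w hw
    rw [mem_reProdIm] at hw
    simp only [min_eq_left (show -η ≤ σ by linarith), max_eq_right (show -η ≤ σ by linarith),
      min_eq_left hT.le, max_eq_right hT.le, mem_Ioo] at hw
    refine (FF_diff hP (diff_Sp ?_) (hG _ ?_ ?_ ?_)).differentiableWithinAt
    · simpa using hw.2.1
    · simp; linarith [hw.1.1]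
    · simp; linarith [hw.1.2]
    · simp only [add_im, one_im, zero_add]
      rw [abs_of_pos hw.2.1]
      exact hw.2.2.le

/-- Cauchy's theorem on the lower rectangle. -/
theorem lower {G : ℂ → ℂ} {u b η σ T : ℝ} (hP : Differentiable ℂ Ph) (hσ : 0 < σ) (hσ1 : σ ≤ 1)
    (hη : 0 < η) (hT : 0 < T)
    (hG : ∀ s : ℂ, 1 - η ≤ s.re → s.re ≤ 2 → |s.im| ≤ T → DifferentiableAt ℂ G s) :
    (∫ x : ℝ in (-η)..σ, FF Sm G u b (x + ((-T : ℝ) : ℂ) * I))
      - (∫ x : ℝ in (-η)..σ, FF Sm G u b (x + ((0 : ℝ) : ℂ) * I))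
      + I * (∫ y : ℝ in (-T)..(0 : ℝ), FF Sm G u b (σ + y * I))
      - I * (∫ y : ℝ in (-T)..(0 : ℝ), FF Sm G u b ((-η : ℝ) + y * I)) = 0 := by
  have hT' : -T ≤ 0 := by linarith
  have h := integral_boundary_rect_eq_zero_of_continuousOn_of_differentiableOn (FF Sm G u b)
    (⟨-η, -T⟩ : ℂ) (⟨σ, 0⟩ : ℂ) ?_ ?_
  · simpa only [smul_eq_mul] using h
  · intro w hw
    rw [mem_reProdIm] at hw
    simp only [uIcc_of_le (show -η ≤ σ by linarith), uIcc_of_le hT', mem_Icc] at hw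
    refine (FF_cont hP (cont_Sm ?_) (hG _ ?_ ?_ ?_).continuousAt).continuousWithinAt
    · simpa using hw.2.2
    · simp; linarith [hw.1.1]
    · simp; linarith [hw.1.2]
    · simp only [add_im, one_im, zero_add]
      rw [abs_of_nonpos hw.2.2]
      linarith [hw.2.1]
  · intro w hw
    rw [mem_reProdIm] at hw
    simp only [min_eq_left (show -η ≤ σ by linarith), max_eq_right (show -η ≤ σ by linarith),
      min_eq_left hT', max_eq_right hT', mem_Ioo] at hw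
    refine (FF_diff hP (diff_Sm ?_) (hG _ ?_ ?_ ?_)).differentiableWithinAt
    · simpa using hw.2.2
    · simp; linarith [hw.1.1]
    · simp; linarith [hw.1.2]
    · simp only [add_im, one_im, zero_add]
      rw [abs_of_neg hw.2.2]
      linarith [hw.2.1]

/-- The jump across the real axis. -/
theorem jump {G : ℂ → ℂ} {u b η x : ℝ} (hPr : ∀ x : ℝ, Ph x = (Pr x : ℂ)) (hPp : ∀ x : ℝ, 0 < Pr x)
    (hG : ∀ x : ℝ, 1 - η ≤ x → x ≤ 1 + b → ∃ r : ℝ, 0 ≤ r ∧ G x = r) (hx : -η ≤ x) :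
    0 ≤ (FF Sp G u b (x + ((0 : ℝ) : ℂ) * I) - FF Sm G u b (x + ((0 : ℝ) : ℂ) * I)).im := by
  have e0 : (x : ℂ) + ((0 : ℝ) : ℂ) * I = (x : ℂ) := by simp
  rw [e0]
  rcases le_or_gt x b with h | h
  · obtain ⟨r, hr, hGr⟩ := hG (1 + x) (by linarith) (by linarith)
    have e1 : (x : ℂ) - (b : ℂ) = ((-(b - x) : ℝ) : ℂ) := by push_cast; ring
    have e2 : (1 : ℂ) + (x : ℂ) = ((1 + x : ℝ) : ℂ) := by push_cast; ring
    have e3 : exp ((u : ℂ) * (x : ℂ)) = ((Real.exp (u * x) : ℝ) : ℂ) := by push_cast; ring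
    have e4 : FF Sp G u b x - FF Sm G u b x
        = ((2 * (Pr x * (b - x) ^ (1 / 2 : ℝ) * r * Real.exp (u * x)) : ℝ) : ℂ) * I := by
      rw [FF, FF, e1, e2, e3, hGr, hPr, Sp_neg (by linarith), Sm_neg (by linarith)]
      push_cast
      ring
    rw [e4, im_ofReal_mul, I_im, mul_one]
    have h1 := (hPp x).le
    have h2 : 0 ≤ b - x := by linarith
    positivity
  · have e1 : 0 < ((x : ℂ) - (b : ℂ)).re := by simpa using h
    rw [FF, FF, Sp_eq e1, Sm_eq e1, sub_self]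
    simp

/-- continuity of the Dirichlet series on a vertical line -/
theorem cont_LS {c : ℕ → ℂ} (hc : ∀ s : ℂ, 1 < s.re → LSeriesSummable c s) {s : ℂ}
    (hs : 1 < s.re) : ContinuousAt (LSeries c) s := by
  have h1 : LSeries.abscissaOfAbsConv c ≤ (1 : ℝ) := by
    refine LSeries.abscissaOfAbsConv_le_of_forall_lt_LSeriesSummable fun y hy => ?_
    exact hc y (by simpa using hy)
  have h2 : LSeries.abscissaOfAbsConv c < s.re := lt_of_le_of_lt h1 (by exact_mod_cast hs)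
  have h3 := (LSeries_differentiableOn c).continuousOn
  exact h3.continuousAt ((isOpen_re_gt_EReal _).mem_nhds h2)

/-- the tail of the integral -/
theorem tail {f : ℝ → ℂ} {M T : ℝ} (hf : Continuous f) (hM : 0 ≤ M) (hT : 1 ≤ T)
    (hb : ∀ τ, ‖f τ‖ ≤ M * (1 + τ ^ 2)⁻¹) :
    ‖(∫ τ, f τ) - ∫ τ in (-T)..T, f τ‖ ≤ M * (2 / T) := by
  have hT0 : 0 < T := by linarith
  have hg : Integrable (fun τ : ℝ => M * (1 + τ ^ 2)⁻¹) := integrable_inv_one_add_sq.const_mul M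
  have hfi : Integrable f := hg.mono' hf.aestronglyMeasurable (Eventually.of_forall hb)
  have e1 : (∫ τ, f τ) - ∫ τ in (-T)..T, f τ = ∫ τ in (Ioc (-T) T)ᶜ, f τ := by
    rw [intervalIntegral.integral_of_le (by linarith), ← integral_add_compl measurableSet_Ioc hfi]
    ring
  have e2 : (∫ τ : ℝ, M * (1 + τ ^ 2)⁻¹) - ∫ τ in (-T)..T, M * (1 + τ ^ 2)⁻¹
      = ∫ τ in (Ioc (-T) T)ᶜ, M * (1 + τ ^ 2)⁻¹ := by
    rw [intervalIntegral.integral_of_le (by linarith), ← integral_add_compl measurableSet_Ioc hg]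
    ring
  rw [e1]
  refine (norm_integral_le_of_norm_le hg.integrableOn (Eventually.of_forall hb)).trans ?_
  rw [← e2, integral_const_mul, intervalIntegral.integral_const_mul, ← mul_sub,
    integral_univ_inv_one_add_sq, integral_inv_one_add_sq, Real.arctan_neg]
  have h1 : Real.arctan T⁻¹ = Real.pi / 2 - Real.arctan T := Real.arctan_inv_of_pos hT0
  have h2 : Real.arctan T⁻¹ ≤ T⁻¹ := by
    have h3 : 0 ≤ Real.arctan T⁻¹ := Real.arctan_nonneg.2 (by positivity)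
    have h4 := Real.le_tan h3 (Real.arctan_lt_pi_div_two _)
    rwa [Real.tan_arctan] at h4
  have h5 : Real.pi - (Real.arctan T - -Real.arctan T) = 2 * Real.arctan T⁻¹ := by
    rw [h1]; ring
  rw [h5]
  have h6 : 2 / T = 2 * T⁻¹ := by ring
  rw [h6]
  gcongr

/-- the Japanese bracket -/
def jb (y : ℝ) : ℝ := (1 + ‖y‖ ^ 2) ^ (-(3 / 2 : ℝ) / 2)

theorem jb_nonneg (y : ℝ) : 0 ≤ jb y := by
  unfold jb
  positivity

theorem jb_int : Integrable jb :=
  integrable_rpow_neg_one_add_norm_sq (E := ℝ) (μ := volume) (r := 3 / 2) (by norm_num)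

theorem jb_T {T : ℝ} (hT : 1 ≤ T) : jb T ≤ 1 / T := by
  have hT0 : 0 < T := by linarith
  unfold jb
  rw [Real.norm_eq_abs, sq_abs]
  calc (1 + T ^ 2) ^ (-(3 / 2 : ℝ) / 2) ≤ (1 + T ^ 2) ^ (-(1 / 2 : ℝ)) :=
        Real.rpow_le_rpow_of_exponent_le (by nlinarith) (by norm_num)
    _ ≤ (T ^ 2) ^ (-(1 / 2 : ℝ)) :=
        Real.rpow_le_rpow_of_nonpos (by positivity) (by linarith) (by norm_num)
    _ = 1 / T := by
        rw [Real.rpow_neg (by positivity), ← Real.sqrt_eq_rpow, Real.sqrt_sq hT0.le, one_div]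

theorem jb_neg (y : ℝ) : jb (-y) = jb y := by
  unfold jb
  rw [norm_neg]

/-- the central part of the integral -/
theorem central {G : ℂ → ℂ} {u b η σ T B C : ℝ} (hP : Differentiable ℂ Ph)
    (hPb : ∀ w : ℂ, -1 ≤ w.re → w.re ≤ 1 → ‖Ph w‖ ≤ C / (1 + ‖w‖ ^ 2))
    (hPr : ∀ x : ℝ, Ph x = (Pr x : ℂ)) (hPp : ∀ x : ℝ, 0 < Pr x) (hC : 0 ≤ C) (hB : 0 ≤ B)
    (hu : 0 < u) (hσ : 0 < σ) (hσ1 : σ ≤ 1) (huσ : u * σ = 1)
    (hη : 0 < η) (hη1 : η ≤ 1 / 4) (hT : 1 ≤ T) (hb : -η ≤ b) (hb0 : b < 0)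
    (hG : ∀ s : ℂ, 1 - η ≤ s.re → s.re ≤ 2 → |s.im| ≤ T → DifferentiableAt ℂ G s ∧ ‖G s‖ ≤ B)
    (hGr : ∀ x : ℝ, 1 - η ≤ x → x ≤ 1 + b → ∃ r : ℝ, 0 ≤ r ∧ G x = r)
    (f : ℝ → ℂ) (hf : ∀ y : ℝ, |y| ≤ T → f y = FF Sp G u b (σ + y * I))
    (hf' : ∀ y : ℝ, |y| ≤ T → f y = FF Sm G u b (σ + y * I)) (hfc : Continuous f) :
    (∫ y in (-T)..T, f y).re
      ≤ 8 * C * B * Real.exp 1 / T + 2 * C * B * Real.exp (-(η * u)) * ∫ y, jb y := by
  have hT0 : 0 < T := by linarith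
  have hb1 : |b| ≤ 1 := by rw [abs_le]; constructor <;> linarith
  have hGd : ∀ s : ℂ, 1 - η ≤ s.re → s.re ≤ 2 → |s.im| ≤ T → DifferentiableAt ℂ G s :=
    fun s h1 h2 h3 => (hG s h1 h2 h3).1
  have hU := upper (u := u) (b := b) hP hσ hσ1 hη hT0 hGd
  have hL := lower (u := u) (b := b) hP hσ hσ1 hη hT0 hGd
  -- the bounds
  have bd : ∀ (S : ℂ → ℂ), (∀ z, ‖S z‖ = ‖z‖ ^ (1 / 2 : ℝ)) → ∀ x y : ℝ, -η ≤ x → x ≤ σ →
      |y| ≤ T → ‖FF S G u b (x + y * I)‖ ≤ 2 * C * B * Real.exp (u * x) * jb y := by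
    intro S hS x y hx hx' hy
    have h := FF_bound (u := u) (w := (x : ℂ) + y * I) hS hb1 hC
      (hPb _ (by simp; linarith) (by simp; linarith))
      (hG (1 + (x + y * I)) (by simp; linarith) (by simp; linarith) (by simpa using hy)).2
    simpa [jb] using h
  have hor : ∀ (S : ℂ → ℂ), (∀ z, ‖S z‖ = ‖z‖ ^ (1 / 2 : ℝ)) → ∀ y : ℝ, |y| = T →
      ‖∫ x : ℝ in (-η)..σ, FF S G u b (x + (y : ℂ) * I)‖ ≤ 4 * C * B * Real.exp 1 / T := by
    intro S hS y hy
    have hjy : jb y ≤ 1 / T := by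
      rcases abs_choice y with h | h
      · rw [h] at hy
        rw [hy]
        exact jb_T hT
      · rw [h] at hy
        rw [← jb_neg, hy]
        exact jb_T hT
    have h1 : ‖∫ x : ℝ in (-η)..σ, FF S G u b (x + (y : ℂ) * I)‖
        ≤ (2 * C * B * Real.exp 1 * (1 / T)) * |σ - (-η)| := by
      refine intervalIntegral.norm_integral_le_of_norm_le_const fun x hx => ?_
      rw [uIoc_of_le (by linarith)] at hx
      refine (bd S hS x y hx.1.le hx.2 hy.le).trans ?_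
      have h2 : u * x ≤ 1 := by
        rw [← huσ]
        exact mul_le_mul_of_nonneg_left hx.2 hu.le
      have h3 := jb_nonneg y
      gcongr
    refine h1.trans ?_
    have h4 : |σ - (-η)| ≤ 2 := by
      rw [abs_of_pos (by linarith)]
      linarith
    calc (2 * C * B * Real.exp 1 * (1 / T)) * |σ - (-η)|
        ≤ (2 * C * B * Real.exp 1 * (1 / T)) * 2 := by gcongr
      _ = _ := by ring
  have hH1 := hor Sp norm_Sp T (abs_of_pos hT0)
  have hH2 := hor Sm norm_Sm (-T) (by rw [abs_neg, abs_of_pos hT0])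
  -- the left vertical side
  have hjI : ∀ a b' : ℝ, IntervalIntegrable (fun y => 2 * C * B * Real.exp (-(η * u)) * jb y)
      volume a b' := fun a b' => (jb_int.const_mul _).intervalIntegrable
  have hV1 : ‖∫ y : ℝ in (0 : ℝ)..T, FF Sp G u b ((-η : ℝ) + y * I)‖
      ≤ ∫ y : ℝ in (0 : ℝ)..T, 2 * C * B * Real.exp (-(η * u)) * jb y := by
    refine intervalIntegral.norm_integral_le_of_norm_le hT0.le ?_ (hjI _ _)
    refine Eventually.of_forall fun y hy => ?_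
    have h := bd Sp norm_Sp (-η) y le_rfl (by linarith) (by rw [abs_of_pos hy.1]; exact hy.2)
    rwa [show u * -η = -(η * u) by ring] at h
  have hV2 : ‖∫ y : ℝ in (-T)..(0 : ℝ), FF Sm G u b ((-η : ℝ) + y * I)‖
      ≤ ∫ y : ℝ in (-T)..(0 : ℝ), 2 * C * B * Real.exp (-(η * u)) * jb y := by
    refine intervalIntegral.norm_integral_le_of_norm_le (by linarith) ?_ (hjI _ _)
    refine Eventually.of_forall fun y hy => ?_
    have h := bd Sm norm_Sm (-η) y le_rfl (by linarith)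
      (by rw [abs_of_nonpos hy.2]; linarith [hy.1])
    rwa [show u * -η = -(η * u) by ring] at h
  have hV : (∫ y : ℝ in (-T)..(0 : ℝ), 2 * C * B * Real.exp (-(η * u)) * jb y)
      + (∫ y : ℝ in (0 : ℝ)..T, 2 * C * B * Real.exp (-(η * u)) * jb y)
      ≤ 2 * C * B * Real.exp (-(η * u)) * ∫ y, jb y := by
    rw [intervalIntegral.integral_add_adjacent_intervals (hjI _ _) (hjI _ _),
      intervalIntegral.integral_const_mul, intervalIntegral.integral_of_le (by linarith)]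
    have : ∫ y in Ioc (-T) T, jb y ≤ ∫ y, jb y :=
      setIntegral_le_integral jb_int (Eventually.of_forall jb_nonneg)
    gcongr
  -- the real segment
  have hcR : ∀ (S : ℂ → ℂ), (∀ z : ℂ, z.im = 0 → ContinuousAt S z) →
      IntervalIntegrable (fun x : ℝ => FF S G u b (x + ((0 : ℝ) : ℂ) * I)) volume (-η) σ := by
    intro S hS
    refine ContinuousOn.intervalIntegrable fun x hx => ?_
    rw [uIcc_of_le (by linarith)] at hx
    have h1 : ContinuousAt (FF S G u b) ((x : ℂ) + ((0 : ℝ) : ℂ) * I) := by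
      refine FF_cont hP (hS _ (by simp)) (hGd _ ?_ ?_ ?_).continuousAt
      · simp; linarith [hx.1]
      · simp; linarith [hx.2]
      · simp; linarith
    have h2 : ContinuousAt (fun x : ℝ => (x : ℂ) + ((0 : ℝ) : ℂ) * I) x := by fun_prop
    exact (ContinuousAt.comp (f := fun x : ℝ => (x : ℂ) + ((0 : ℝ) : ℂ) * I) h1 h2).continuousWithinAt
  have hRp := hcR Sp (fun z hz => cont_Sp hz.ge)
  have hRm := hcR Sm (fun z hz => cont_Sm hz.le)
  have hD : 0 ≤ ((∫ x : ℝ in (-η)..σ, FF Sp G u b (x + ((0 : ℝ) : ℂ) * I))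
      - ∫ x : ℝ in (-η)..σ, FF Sm G u b (x + ((0 : ℝ) : ℂ) * I)).im := by
    rw [← intervalIntegral.integral_sub hRp hRm]
    have h1 := imCLM.intervalIntegral_comp_comm (hRp.sub hRm)
    simp only [imCLM_apply] at h1
    rw [← h1]
    refine intervalIntegral.integral_nonneg (by linarith) fun x hx => ?_
    exact jump (u := u) hPr hPp hGr hx.1
  -- the right vertical side
  have hA1 : ∫ y : ℝ in (0 : ℝ)..T, FF Sp G u b (σ + y * I) = ∫ y : ℝ in (0 : ℝ)..T, f y := by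
    refine intervalIntegral.integral_congr fun y hy => ?_
    rw [uIcc_of_le hT0.le] at hy
    exact (hf y (by rw [abs_of_nonneg hy.1]; exact hy.2)).symm
  have hA2 : ∫ y : ℝ in (-T)..(0 : ℝ), FF Sm G u b (σ + y * I) = ∫ y : ℝ in (-T)..(0 : ℝ), f y := by
    refine intervalIntegral.integral_congr fun y hy => ?_
    rw [uIcc_of_le (by linarith)] at hy
    exact (hf' y (by rw [abs_of_nonpos hy.2]; linarith [hy.1])).symm
  have hA : (∫ y in (-T)..T, f y)
      = (∫ y : ℝ in (-T)..(0 : ℝ), f y) + ∫ y : ℝ in (0 : ℝ)..T, f y :=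
    (intervalIntegral.integral_add_adjacent_intervals (hfc.intervalIntegrable _ _)
      (hfc.intervalIntegrable _ _)).symm
  rw [hA1] at hU
  rw [hA2] at hL
  rw [hA]
  -- names
  generalize (∫ x : ℝ in (-η)..σ, FF Sp G u b (x + ((0 : ℝ) : ℂ) * I)) = R1 at hU hD
  generalize (∫ x : ℝ in (-η)..σ, FF Sm G u b (x + ((0 : ℝ) : ℂ) * I)) = R2 at hL hD
  generalize (∫ x : ℝ in (-η)..σ, FF Sp G u b (x + (T : ℂ) * I)) = H1 at hU hH1
  generalize (∫ x : ℝ in (-η)..σ, FF Sm G u b (x + ((-T : ℝ) : ℂ) * I)) = H2 at hL hH2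
  generalize (∫ y : ℝ in (0 : ℝ)..T, FF Sp G u b ((-η : ℝ) + y * I)) = V1 at hU hV1
  generalize (∫ y : ℝ in (-T)..(0 : ℝ), FF Sm G u b ((-η : ℝ) + y * I)) = V2 at hL hV2
  generalize (∫ y : ℝ in (0 : ℝ)..T, f y) = A1 at hU ⊢
  generalize (∫ y : ℝ in (-T)..(0 : ℝ), f y) = A2 at hL ⊢
  generalize (∫ y : ℝ in (0 : ℝ)..T, 2 * C * B * Real.exp (-(η * u)) * jb y) = W1 at hV1 hV
  generalize (∫ y : ℝ in (-T)..(0 : ℝ), 2 * C * B * Real.exp (-(η * u)) * jb y) = W2 at hV2 hV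
  have key : A2 + A1 = I * (R1 - R2) - I * H1 + I * H2 + V1 + V2 := by
    have e : I * (A2 + A1) = -(R1 - R2) + H1 - H2 + I * V1 + I * V2 := by
      linear_combination hU + hL
    have e2 : A2 + A1 = -I * (I * (A2 + A1)) := by
      rw [← mul_assoc, neg_mul, I_mul_I]; ring
    rw [e2, e]
    have hI : I * I = -1 := I_mul_I
    linear_combination (-(V1 + V2)) * hI
  have r1 : (I * (R1 - R2)).re ≤ 0 := by
    have : (I * (R1 - R2)).re = -(R1 - R2).im := by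
      simp
    rw [this]
    linarith
  have r2 : (-(I * H1)).re ≤ ‖H1‖ := by
    refine (re_le_norm _).trans ?_
    rw [norm_neg, norm_mul, norm_I, one_mul]
  have r3 : (I * H2).re ≤ ‖H2‖ := by
    refine (re_le_norm _).trans ?_
    rw [norm_mul, norm_I, one_mul]
  have r4 : V1.re ≤ ‖V1‖ := re_le_norm _
  have r5 : V2.re ≤ ‖V2‖ := re_le_norm _
  rw [key]
  have e6 : (I * (R1 - R2) - I * H1 + I * H2 + V1 + V2).re
      = (I * (R1 - R2)).re + (-(I * H1)).re + (I * H2).re + V1.re + V2.re := by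
    simp only [add_re, sub_re, neg_re]
    ring
  rw [e6]
  have e7 : 8 * C * B * Real.exp 1 / T = 4 * C * B * Real.exp 1 / T + 4 * C * B * Real.exp 1 / T := by
    ring
  rw [e7]
  linarith

/-- **FK-CK.** -/
theorem t_CK : S_PHB → S_INV → S_CK := by
  rintro ⟨⟨C, hPb⟩, hP, hPr, hPp⟩ hInv
  have hC : 0 ≤ C := by
    have h := (norm_nonneg _).trans (hPb 0 (by simp) (by simp))
    simpa using h
  have hK : 0 ≤ ∫ y, jb y := integral_nonneg jb_nonneg
  refine ⟨10 * C * Real.exp 1 + 2 * C * ∫ y, jb y, by positivity, ?_⟩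
  intro c G u η T B β hu hη hη1 hT hB hβ hβ1 hc hcB hG hGr hcG
  have hu0 : 0 < u := by linarith
  have hT0 : 0 < T := by linarith
  set σ : ℝ := 1 / u with hσd
  have hσ : 0 < σ := by positivity
  have hσ1 : σ ≤ 1 := by
    rw [hσd, div_le_one hu0]
    exact hu
  have huσ : u * σ = 1 := by
    rw [hσd]
    field_simp
  set f : ℝ → ℂ := fun τ => Ph (σ + τ * I) * LSeries c (1 + σ + τ * I) * exp (u * (σ + τ * I))
    with hfd
  have hfc : Continuous f := by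
    rw [continuous_iff_continuousAt]
    intro τ
    have h1 : ContinuousAt (fun τ : ℝ => Ph (σ + τ * I)) τ := by
      have := hP.continuous
      fun_prop
    have h2 : ContinuousAt (fun τ : ℝ => LSeries c (1 + σ + τ * I)) τ :=
      ContinuousAt.comp (f := fun τ : ℝ => (1 : ℂ) + σ + τ * I)
        (cont_LS hc (by simpa using hσ)) (by fun_prop)
    have h3 : ContinuousAt (fun τ : ℝ => exp (u * (σ + τ * I))) τ := by fun_prop
    exact (h1.mul h2).mul h3
  have hfb : ∀ τ, ‖f τ‖ ≤ (C * B * Real.exp 1) * (1 + τ ^ 2)⁻¹ := by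
    intro τ
    have h1 := hPb (σ + τ * I) (by simp; linarith) (by simpa using hσ1)
    have h2 := hcB (1 + σ + τ * I) (by simp)
    have h3 : ‖exp (u * (σ + τ * I))‖ = Real.exp 1 := by
      rw [norm_exp]
      congr 1
      simp [huσ]
    have h4 : C / (1 + ‖(σ : ℂ) + τ * I‖ ^ 2) ≤ C / (1 + τ ^ 2) := by
      have h5 : |τ| ≤ ‖(σ : ℂ) + τ * I‖ := by
        have := abs_im_le_norm ((σ : ℂ) + τ * I)
        simpa using this
      have h6 : τ ^ 2 ≤ ‖(σ : ℂ) + τ * I‖ ^ 2 := by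
        rw [← sq_abs τ]
        gcongr
      gcongr
    simp only [hfd]
    rw [norm_mul, norm_mul, h3]
    calc ‖Ph (σ + τ * I)‖ * ‖LSeries c (1 + σ + τ * I)‖ * Real.exp 1
        ≤ (C / (1 + τ ^ 2)) * B * Real.exp 1 := by
          gcongr
          exact h1.trans h4
      _ = _ := by rw [div_eq_mul_inv]; ring
  have hLS := hInv c u σ hσ hσ1 hc
  have htail := tail hfc (by positivity) hT hfb
  have hre : ∀ y : ℝ, (0 : ℝ) < (((σ : ℂ) + y * I) - ((β - 1 : ℝ) : ℂ)).re := by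
    intro y
    simp
    linarith
  have hLG : ∀ y : ℝ, |y| ≤ T → LSeries c (1 + σ + y * I)
      = (((σ : ℂ) + y * I) - ((β - 1 : ℝ) : ℂ)) ^ ((1 / 2 : ℝ) : ℂ) * G (1 + (σ + y * I)) := by
    intro y hy
    rw [hcG (1 + σ + y * I) (by simpa using hσ) (by simp; linarith) (by simpa using hy)]
    congr 2
    · push_cast; ring
    · ring
  have hcen := central (G := G) (u := u) (b := β - 1) (η := η) (σ := σ) (T := T) (B := B) (C := C)
    hP hPb hPr hPp hC hB hu0 hσ hσ1 huσ hη hη1 hT (by linarith) (by linarith) hG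
    (fun x h1 h2 => hGr x h1 (by linarith)) f
    (fun y hy => by
      simp only [hfd]
      rw [FF, Sp_eq (hre y), hLG y hy]
      ring)
    (fun y hy => by
      simp only [hfd]
      rw [FF, Sm_eq (hre y), hLG y hy]
      ring) hfc
  have hre2 : (LS c u).re = (1 / (2 * Real.pi)) * (∫ τ, f τ).re := by
    rw [hLS]
    have e1 : (1 / (2 * Real.pi) : ℂ) = ((1 / (2 * Real.pi) : ℝ) : ℂ) := by push_cast; ring
    rw [e1, re_ofReal_mul]
  have hfre : (∫ τ, f τ).re ≤ (10 * C * Real.exp 1 + 2 * C * ∫ y, jb y) * B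
      * (Real.exp (-(η * u)) + 1 / T) := by
    have h1 : (∫ τ, f τ).re = (∫ τ in (-T)..T, f τ).re + ((∫ τ, f τ) - ∫ τ in (-T)..T, f τ).re := by
      rw [sub_re]; ring
    have h2 := (re_le_norm ((∫ τ, f τ) - ∫ τ in (-T)..T, f τ)).trans htail
    rw [h1]
    have h3 : (∫ τ in (-T)..T, f τ).re + ((∫ τ, f τ) - ∫ τ in (-T)..T, f τ).re
        ≤ (8 * C * B * Real.exp 1 / T + 2 * C * B * Real.exp (-(η * u)) * ∫ y, jb y)
          + (C * B * Real.exp 1) * (2 / T) := add_le_add hcen h2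
    refine h3.trans ?_
    have h4 : 0 ≤ 10 * C * Real.exp 1 * B * Real.exp (-(η * u)) := by positivity
    have h5 : 0 ≤ 2 * C * (∫ y, jb y) * B * (1 / T) := by positivity
    have h6 : (8 * C * B * Real.exp 1 / T + 2 * C * B * Real.exp (-(η * u)) * ∫ y, jb y)
          + (C * B * Real.exp 1) * (2 / T)
        = 10 * C * Real.exp 1 * B * (1 / T) + 2 * C * (∫ y, jb y) * B * Real.exp (-(η * u)) := by
      ring
    rw [h6]
    nlinarith
  have hX : 0 ≤ (10 * C * Real.exp 1 + 2 * C * ∫ y, jb y) * B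
      * (Real.exp (-(η * u)) + 1 / T) := by positivity
  rw [hre2]
  have hpi : 1 / (2 * Real.pi) ≤ 1 := by
    rw [div_le_one (by positivity)]
    linarith [Real.pi_gt_three]
  have hpi0 : 0 ≤ 1 / (2 * Real.pi) := by positivity
  calc 1 / (2 * Real.pi) * (∫ τ, f τ).re
      ≤ 1 / (2 * Real.pi) * ((10 * C * Real.exp 1 + 2 * C * ∫ y, jb y) * B
      * (Real.exp (-(η * u)) + 1 / T)) := by gcongr
    _ ≤ 1 * ((10 * C * Real.exp 1 + 2 * C * ∫ y, jb y) * B
      * (Real.exp (-(η * u)) + 1 / T)) := by gcongr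
    _ = _ := one_mul _

end

end Pool.Agent.Y930.FK
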